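import Pool.Agent.H973R3.NC.AsmE
import Pool.Agent.H988R6.Up
import Pool.Agent.H974R4.Defs

/-!
Near-critical stability of the four-arm probability and of the box crossings, without hypotheses
(the critical four-arm estimate `H988R6.a4_sharp` is inserted into `H973N.stab`, `H973N.near_of`,
`H973N.stab_lower`).
-/

namespace H973N

open H974 H12S Finset

theorem hcrit0 : ∀ ε : ℝ, 0 < ε → ∃ C : ℝ, ∀ k : ℕ, 1 ≤ k →
      a4 (1/2) k ≤ C * (k:ℝ) ^ (-(5/4 : ℝ) + ε) := by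
  obtain ⟨c, C, hc, hC, h⟩ := Pool.Agent.H988R6.a4_sharp
  intro ε hε
  refine ⟨C, fun k hk => ((h k hk).2).trans ?_⟩
  apply mul_le_mul_of_nonneg_left _ hC.le
  apply Real.rpow_le_rpow_of_exponent_le (by exact_mod_cast hk) (by linarith)

theorem hlow0 : ∀ ε : ℝ, 0 < ε → ∃ c : ℝ, 0 < c ∧ ∀ k : ℕ, 1 ≤ k →
      c * (k:ℝ) ^ (-(5/4 : ℝ) - ε) ≤ a4 (1/2) k := by
  obtain ⟨c, C, hc, hC, h⟩ := Pool.Agent.H988R6.a4_sharp
  intro ε hε
  refine ⟨c, hc, fun k hk => le_trans ?_ ((h k hk).1)⟩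
  apply mul_le_mul_of_nonneg_left _ hc.le
  apply Real.rpow_le_rpow_of_exponent_le (by exact_mod_cast hk) (by linarith)

/-- Stability of the box crossings and of the upper bound for the four-arm probability. -/
theorem stab0 :
    ∃ κ : ℝ, 0 < κ ∧ ∀ ε : ℝ, 0 < ε → ε ≤ 1 / 8 → ∃ C : ℝ, 1 ≤ C ∧ ∀ n : ℕ, 1 ≤ n → ∀ q : ℝ,
      |q - 1/2| ≤ (n:ℝ) ^ (-(3/4 : ℝ) - ε) / C → Win q κ n ∧ A4le q C ε n :=
  stab hcrit0

/-- The form used by helper31 (`H31K.Inp.near`). -/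
theorem near0 :
    ∀ ε : ℝ, 0 < ε → ∃ κ B : ℝ, 0 < κ ∧ 0 < B ∧ ∀ n : ℕ, 1 ≤ n → ∀ q : ℝ,
      |q - 1/2| ≤ κ * (n:ℝ)^(-(3/4) - ε) → Win q κ n ∧
      ∀ m : ℕ, 1 ≤ m → m ≤ n → a4 q m ≤ B * (m:ℝ)^(-(5/4) + ε) :=
  near_of hcrit0

/-- The lower bound in the window. -/
theorem stab_lower0 :
    ∀ ε : ℝ, 0 < ε → ε ≤ 1 / 8 → ∃ C : ℝ, 1 ≤ C ∧ ∀ n : ℕ, 1 ≤ n → ∀ q : ℝ,
      |q - 1/2| ≤ (n:ℝ) ^ (-(3/4 : ℝ) - ε) / C →
        ∀ k : ℕ, 1 ≤ k → (k:ℝ) ≤ (n:ℝ) ^ (1 - ε) / C →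
          (k:ℝ) ^ (-(5/4 : ℝ) - ε) / C ≤ a4 q k :=
  stab_lower hcrit0 hlow0

theorem stW1_aux : ∃ κ : ℝ, 0 < κ ∧ ∀ ε : ℝ, 0 < ε → ε ≤ 1/8 → ∃ n0 : ℕ, ∀ n : ℕ, n0 ≤ n →
    ∀ q : ℝ, |q - 1/2| ≤ (n:ℝ) ^ (-(3/4 : ℝ) - ε) →
    H12S.Win q κ n ∧ (n:ℝ) ^ (-(5/4 : ℝ) - ε) ≤ a4 q n ∧ a4 q n ≤ (n:ℝ) ^ (-(5/4 : ℝ) + ε) := by
  obtain ⟨κ, hκ, hst⟩ := stab0
  refine ⟨κ, hκ, ?_⟩
  intro ε hε hε8
  obtain ⟨C, hC, hst⟩ := hst (ε/4) (by linarith) (by linarith)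
  obtain ⟨D, hD, hlo⟩ := stab_lower0 (ε/4) (by linarith) (by linarith)
  have hCpos : 0 < C := by linarith
  have hDpos : 0 < D := by linarith
  have he0 : 0 < 1 - ε/4 := by linarith
  set e1 : ℝ := 1 / (1 - ε/4) with he1
  have he1mul : e1 * (1 - ε/4) = 1 := by rw [he1]; exact div_mul_cancel₀ 1 he0.ne'
  have he1pos : 1 ≤ e1 := by rw [he1, le_div_iff₀ he0]; linarith
  have he12 : e1 ≤ 2 := by rw [he1, div_le_iff₀ he0]; linarith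
  -- scales
  obtain ⟨k1, hk1⟩ := big_scale C (3*ε/4) (by linarith)
  obtain ⟨k2, hk2⟩ := big_scale D (3*ε/4) (by linarith)
  obtain ⟨k3, hk3⟩ := big_scale (D * (2 * D^2)) (ε/2) (by linarith)
  refine ⟨max k1 (max k2 (max k3 1)), ?_⟩
  intro n hn q hq
  have hn1 : 1 ≤ n := le_trans (le_trans (le_max_right _ _) (le_max_right _ _)) (le_trans (le_max_right _ _) hn)
  have hk1n : k1 ≤ n := le_trans (le_max_left _ _) hn
  have hk2n : k2 ≤ n := le_trans (le_trans (le_max_left _ _) (le_max_right _ _)) hn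
  have hk3n : k3 ≤ n := le_trans (le_trans (le_trans (le_max_left _ _) (le_max_right _ _)) (le_max_right _ _)) hn
  have hnr : (1:ℝ) ≤ n := by exact_mod_cast hn1
  have hnpos : (0:ℝ) < n := by linarith
  have g1 := hk1 n hk1n
  have g2 := hk2 n hk2n
  have g3 := hk3 n hk3n
  -- upper bound part
  have hu := hst n hn1 q (by
    refine hq.trans ?_
    rw [le_div_iff₀ hCpos]
    have e : (n:ℝ) ^ (-(3/4 : ℝ) - ε/4) = (n:ℝ) ^ (-(3/4 : ℝ) - ε) * (n:ℝ) ^ (3*ε/4) := by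
      rw [← Real.rpow_add hnpos]; congr 1; ring
    rw [e]
    exact mul_le_mul_of_nonneg_left g1.le (by positivity))
  refine ⟨hu.1, ?_, ?_⟩
  · -- lower bound
    -- the larger scale
    set X : ℝ := (D * (n:ℝ)) ^ e1 with hX
    have hDn : 1 ≤ D * (n:ℝ) := by nlinarith
    have hX1 : 1 ≤ X := Real.one_le_rpow hDn (by linarith)
    set N : ℕ := ⌈X⌉₊ with hN
    have hXN : X ≤ N := Nat.le_ceil X
    have hNX : (N:ℝ) ≤ 2 * X := by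
      have := (Nat.ceil_lt_add_one (by linarith : 0 ≤ X)).le
      rw [hN]; linarith
    have hN1 : 1 ≤ N := by
      have : (1:ℝ) ≤ N := by linarith
      exact_mod_cast this
    have hNpos : (0:ℝ) < N := by exact_mod_cast hN1
    have hnN : (n:ℝ) ≤ (N:ℝ) ^ (1 - ε/4) / D := by
      rw [le_div_iff₀ hDpos]
      calc (n:ℝ) * D = X ^ (1 - ε/4) := by
            rw [hX, ← Real.rpow_mul (by linarith), he1mul, Real.rpow_one]; ring
        _ ≤ _ := Real.rpow_le_rpow (by linarith) hXN (by linarith)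
    have hXle : X ≤ D^2 * (n:ℝ) ^ e1 := by
      rw [hX, Real.mul_rpow hDpos.le hnpos.le]
      apply mul_le_mul_of_nonneg_right _ (by positivity)
      calc D ^ e1 ≤ D ^ (2:ℝ) := Real.rpow_le_rpow_of_exponent_le hD he12
        _ = D^2 := Real.rpow_two D
    have hNle : (N:ℝ) ≤ (2 * D^2) * (n:ℝ) ^ e1 := by
      calc (N:ℝ) ≤ 2 * X := hNX
        _ ≤ 2 * (D^2 * (n:ℝ) ^ e1) := by linarith
        _ = _ := by ring
    have hq2 : |q - 1/2| ≤ (N:ℝ) ^ (-(3/4 : ℝ) - ε/4) / D := by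
      refine hq.trans ?_
      rw [le_div_iff₀ hDpos]
      have j1 : ((2 * D^2) * (n:ℝ) ^ e1) ^ (-(3/4 : ℝ) - ε/4) ≤ (N:ℝ) ^ (-(3/4 : ℝ) - ε/4) :=
        Real.rpow_le_rpow_of_nonpos hNpos hNle (by linarith)
      refine le_trans ?_ j1
      have h2D : 1 ≤ 2 * D^2 := by nlinarith
      rw [Real.mul_rpow (by positivity) (by positivity), ← Real.rpow_mul hnpos.le]
      have j2 : (2 * D^2)⁻¹ ≤ (2 * D^2) ^ (-(3/4 : ℝ) - ε/4) := by
        rw [← Real.rpow_neg_one]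
        exact Real.rpow_le_rpow_of_exponent_le h2D (by linarith)
      have j3 : (n:ℝ) ^ (-(3/4 : ℝ) - ε/2) ≤ (n:ℝ) ^ (e1 * (-(3/4 : ℝ) - ε/4)) := by
        apply Real.rpow_le_rpow_of_exponent_le hnr
        have : e1 ≤ 1 + ε/3 := by
          rw [he1, div_le_iff₀ he0]; nlinarith
        nlinarith
      have j4 : (n:ℝ) ^ (-(3/4 : ℝ) - ε) * D ≤ (2 * D^2)⁻¹ * (n:ℝ) ^ (-(3/4 : ℝ) - ε/2) := by
        have e : (n:ℝ) ^ (-(3/4 : ℝ) - ε/2) = (n:ℝ) ^ (-(3/4 : ℝ) - ε) * (n:ℝ) ^ (ε/2) := by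
          rw [← Real.rpow_add hnpos]; congr 1; ring
        rw [e, inv_mul_eq_div, le_div_iff₀ (by positivity)]
        calc (n:ℝ) ^ (-(3/4 : ℝ) - ε) * D * (2 * D^2) = (n:ℝ) ^ (-(3/4 : ℝ) - ε) * (D * (2 * D^2)) := by ring
          _ ≤ _ := mul_le_mul_of_nonneg_left g3.le (by positivity)
      exact j4.trans (mul_le_mul j2 j3 (by positivity) (by positivity))
    have h := hlo N hN1 q hq2 n hn1 hnN
    refine le_trans ?_ h
    rw [le_div_iff₀ hDpos]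
    have e : (n:ℝ) ^ (-(5/4 : ℝ) - ε/4) = (n:ℝ) ^ (-(5/4 : ℝ) - ε) * (n:ℝ) ^ (3*ε/4) := by
      rw [← Real.rpow_add hnpos]; congr 1; ring
    rw [e]
    exact mul_le_mul_of_nonneg_left g2.le (by positivity)
  · -- upper bound
    have h := hu.2 n (by omega)
    refine h.trans ?_
    have e : (n:ℝ) ^ (-(5/4 : ℝ) + ε) = (n:ℝ) ^ (3*ε/4) * (n:ℝ) ^ (-(5/4 : ℝ) + ε/4) := by
      rw [← Real.rpow_add hnpos]; congr 1; ring
    have e2 : ((n:ℝ) + 1) ^ (-(5/4 : ℝ) + ε/4) ≤ (n:ℝ) ^ (-(5/4 : ℝ) + ε/4) :=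
      Real.rpow_le_rpow_of_nonpos hnpos (by linarith) (by linarith)
    rw [e]
    exact mul_le_mul g1.le e2 (by positivity) (by positivity)

/-- (W1) of helper974, closed. -/
theorem stW1 : StW1 := by
  obtain ⟨κ, hκ, h⟩ := stW1_aux
  refine ⟨κ, hκ, ?_⟩
  intro ε hε
  obtain ⟨n0, h0⟩ := h (min ε (1/8)) (lt_min hε (by norm_num)) (min_le_right _ _)
  refine ⟨max n0 1, ?_⟩
  intro n hn q hq
  have hn1 : (1:ℝ) ≤ n := by
    have : 1 ≤ n := le_trans (le_max_right _ _) hn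
    exact_mod_cast this
  have hm : min ε (1/8) ≤ ε := min_le_left _ _
  obtain ⟨h1, h2, h3⟩ := h0 n (le_trans (le_max_left _ _) hn) q (hq.trans
    (Real.rpow_le_rpow_of_exponent_le hn1 (by linarith)))
  exact ⟨h1, (Real.rpow_le_rpow_of_exponent_le hn1 (by linarith)).trans h2,
    h3.trans (Real.rpow_le_rpow_of_exponent_le hn1 (by linarith))⟩

end H973N
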