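import Pool.Agent.H12R2.Sep.In1F
import Pool.Agent.H12R2.Sep.In2
import Pool.Agent.H12R2.Sep.InTop
import Pool.Agent.H12R2.Sep.InAll
import Pool.Agent.H12R2.Sep.Ext1
import Pool.Agent.H12R2.Sep.Ext2
import Pool.Agent.H12R2.Sep.Inward
import Pool.Agent.H12R2.Sep.Step2

/-!
# The inward inequality (batch 5), without hypotheses
-/

namespace H12S

open H974 Finset

theorem in2_closed : ItIn2 := fun κ hκ L M1 M2 B P1 P2 δ hδ =>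
  in2_of (fun κ hκ K δ hδ => step2 κ hκ K δ hδ) κ hκ L M1 M2 B P1 P2 δ hδ

theorem in1_closed : ItIn1 := fun κ hκ L M1 M2 B P1 P2 => in1 κ hκ L M1 M2 B P1 P2

theorem in_top_closed : InTop := inTop_of in1_closed in2_closed

theorem ext_det_closed : XP.ExtDet := by
  intro c s r ρ1 ρ2 hr h8 h64 hs I J hI F hF hp1 hp2 h0 h1 h2
  exact ext_det hr h8 h64 hs hI hF hp1 hp2 h0 h1 h2

/-- The inward inequality. -/
theorem inward_closed (κ : ℝ) (hκ : 0 < κ) (δ : ℝ) (hδ : 0 < δ) : ∃ t M20 : ℕ, 1 ≤ t ∧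
    ∀ (L M1 M2 : ℕ), 2 ≤ L → 64 ≤ M1 → 8 * M1 ≤ M2 → M20 ≤ M2 → ∀ C1 : ℝ, 0 < C1 →
    ∃ (Mr : ℕ) (C : ℝ), 1 ≤ Mr ∧ 0 < C ∧ ∀ (q : ℝ) (n : ℕ), Win q κ n → ∀ (r m s : ℕ), Mr ≤ r →
      m = M2 * r → s = 256 * t * L * m → s ≤ n → a4 q (m / 8) ≤ C1 * a4 q (4 * L * m) →
      ∀ (σ1 σ2 : Bool) (k1 k2 : ℤ), |2 * k1| ≤ L * M2 + 1 → |2 * k2| ≤ L * M2 + 1 →
      (m:ℝ) ^ 2 * a4 q (4 * L * m) ≤ C1 * TS q L m r (m / M1) σ1 k1 σ2 k2 →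
      ∀ (a b c d : ℤ) (p : ℤ × ℤ), a + 4 * s ≤ p.1 → p.1 + 4 * s ≤ b → c + 4 * s ≤ p.2 →
      p.2 + 4 * s ≤ d →
      (PQ q (RE a b c d) (fun F => BPv (lsd a c d) (lsd b c d) (blk p (s - 1)) ↑F) -
        δ * PQ q (RE a b c d) (fun F => BPv (lsd a c d) (lsd b c d) (blk p (3 * s)) ↑F)) *
          ((m:ℝ) ^ 2 * a4 q (4 * L * m)) ≤
        C * ∑ e ∈ blk p s, PQ q (RE a b c d) (fun F => Pv (lsd a c d) (lsd b c d) e ↑F) :=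
  inward_of κ (ext_prob_of ext_det_closed κ hκ)
    (fun L M1 M2 B P1 P2 C1 δ hC1 hδ => in_all_of in_top_closed κ hκ L M1 M2 B P1 P2 C1 δ hC1 hδ)
    δ hδ

end H12S

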